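import Pool.Agent.helper62.RP.Spec

set_option autoImplicit false

/-!
# Row rp:SG2 (MP_07c750_an)
-/

open Polynomial Filter
open Pool.Agent.QU

namespace Pool.Agent.RP

lemma SG2_rel : surfRel 2 = (FreeGroup.of ((0 : Fin 2), false) * FreeGroup.of (0, true) *
    (FreeGroup.of (0, false))⁻¹ * (FreeGroup.of (0, true))⁻¹) * (FreeGroup.of (1, false) * FreeGroup.of (1, true) *
    (FreeGroup.of (1, false))⁻¹ * (FreeGroup.of (1, true))⁻¹) := by
  unfold surfRel
  rw [List.ofFn_succ, List.ofFn_succ, List.ofFn_zero, List.prod_cons, List.prod_cons, List.prod_nil, mul_one]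
  rfl

/-- the homomorphisms from the free group -/
noncomputable def SG2_j (s : Bool) : F2 →* SurfGrp 2 :=
  FreeGroup.lift (fun x : Fin 2 => if s then (if x = 0 then PresentedGroup.of ((1 : Fin 2), true) else
    PresentedGroup.of ((1 : Fin 2), false)) else (if x = 0 then PresentedGroup.of ((0 : Fin 2), false) else
    PresentedGroup.of ((0 : Fin 2), true)))

/-- conjugation as a homomorphism -/
noncomputable def SG2_c (h : ℕ) (s : Bool) : F2 →* F2 :=
  if s then (MulAut.conj (w0 ^ h)).toMonoidHom else (MulAut.conj (w0 ^ h)⁻¹).toMonoidHom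

lemma SG2_c_apply (h : ℕ) (s : Bool) (y : F2) : SG2_c h s y = cw h s y := by
  unfold SG2_c cw
  cases s
  · show (MulAut.conj (w0 ^ h)⁻¹) y = (w0 ^ h)⁻¹ * y * w0 ^ h
    rw [MulAut.conj_apply, inv_inv]
  · show (MulAut.conj (w0 ^ h)) y = w0 ^ h * y * (w0 ^ h)⁻¹
    rw [MulAut.conj_apply]

/-- images of the generators -/
noncomputable def SG2_f (h : ℕ) (x : Fin 2 × Bool) : F2 :=
  if x.1 = 0 then SG2_c h false (FreeGroup.of (if x.2 then 1 else 0))
  else SG2_c h true (FreeGroup.of (if x.2 then 0 else 1))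

lemma SG2_c_w0 (h : ℕ) (s : Bool) : SG2_c h s w0 = w0 := by
  rw [SG2_c_apply]
  unfold cw
  cases s
  · simp only [Bool.false_eq_true, if_false]
    rw [mul_assoc, (Commute.self_pow w0 h).eq, inv_mul_cancel_left]
  · simp only [if_true]
    rw [(Commute.pow_self w0 h).eq, mul_inv_cancel_right]

lemma SG2_hf (h : ℕ) : ∀ r ∈ ({surfRel 2} : Set (FreeGroup (Fin 2 × Bool))), FreeGroup.lift (SG2_f h) r = 1 := by
  intro r hr
  rw [Set.mem_singleton_iff] at hr
  subst hr
  rw [SG2_rel]
  simp only [map_mul, map_inv, FreeGroup.lift_apply_of]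
  have e0 : SG2_f h (0, false) = SG2_c h false (FreeGroup.of 0) := by simp [SG2_f]
  have e1 : SG2_f h (0, true) = SG2_c h false (FreeGroup.of 1) := by simp [SG2_f]
  have e2 : SG2_f h (1, false) = SG2_c h true (FreeGroup.of 1) := by simp [SG2_f]
  have e3 : SG2_f h (1, true) = SG2_c h true (FreeGroup.of 0) := by simp [SG2_f]
  rw [e0, e1, e2, e3]
  have k1 : SG2_c h false (FreeGroup.of 0) * SG2_c h false (FreeGroup.of 1) * (SG2_c h false (FreeGroup.of 0))⁻¹ *
      (SG2_c h false (FreeGroup.of 1))⁻¹ = w0 := by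
    have := SG2_c_w0 h false
    unfold w0 at this ⊢
    rw [map_mul, map_mul, map_mul, map_inv, map_inv] at this
    exact this
  have k2 : SG2_c h true (FreeGroup.of 1) * SG2_c h true (FreeGroup.of 0) * (SG2_c h true (FreeGroup.of 1))⁻¹ *
      (SG2_c h true (FreeGroup.of 0))⁻¹ = w0⁻¹ := by
    have := SG2_c_w0 h true
    unfold w0 at this ⊢
    rw [map_mul, map_mul, map_mul, map_inv, map_inv] at this
    rw [← this]
    group
  rw [k1, k2, mul_inv_cancel]

/-- the homomorphisms to the free group -/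
noncomputable def SG2_psi (h : ℕ) : SurfGrp 2 →* F2 := PresentedGroup.toGroup (SG2_hf h)

lemma SG2_psi_of (h : ℕ) (x : Fin 2 × Bool) : SG2_psi h (PresentedGroup.of x) = SG2_f h x := by
  unfold SG2_psi
  exact PresentedGroup.toGroup.of (SG2_hf h)

lemma SG2_one : (PresentedGroup.of ((0 : Fin 2), false) * PresentedGroup.of (0, true) *
    (PresentedGroup.of (0, false))⁻¹ * (PresentedGroup.of (0, true))⁻¹) * (PresentedGroup.of (1, false) *
    PresentedGroup.of (1, true) * (PresentedGroup.of (1, false))⁻¹ * (PresentedGroup.of (1, true))⁻¹)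
    = (1 : SurfGrp 2) := by
  have h1 : PresentedGroup.mk {surfRel 2} (surfRel 2) = 1 :=
    PresentedGroup.one_of_mem (rels := {surfRel 2}) (Set.mem_singleton _)
  have h2 := congrArg (PresentedGroup.mk {surfRel 2}) SG2_rel
  rw [h1] at h2
  simp only [map_mul, map_inv] at h2
  exact h2.symm

theorem SG2 : SG2_stmt := by
  refine ⟨SG2_j, SG2_psi, ?_, ?_, ?_⟩
  · unfold w0 SG2_j
    simp only [map_mul, map_inv, FreeGroup.lift_apply_of]
    have h1 := SG2_one
    have h2 := eq_inv_of_mul_eq_one_left h1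
    simp only [Bool.false_eq_true, if_false, if_true, one_ne_zero]
    rw [h2]
    group
  · intro h s y
    rw [← SG2_c_apply]
    have e : (SG2_psi h).comp (SG2_j s) = SG2_c h s := by
      refine FreeGroup.ext_hom _ _ ?_
      intro x
      rw [MonoidHom.comp_apply]
      unfold SG2_j
      rw [FreeGroup.lift_apply_of]
      cases s
      · fin_cases x
        · simp [SG2_psi_of, SG2_f]
        · simp [SG2_psi_of, SG2_f]
      · fin_cases x
        · simp [SG2_psi_of, SG2_f]
        · simp [SG2_psi_of, SG2_f]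
    rw [← e]
    rfl
  · rw [eq_top_iff, ← PresentedGroup.closure_range_of {surfRel 2}]
    refine Subgroup.closure_mono ?_
    rintro _ ⟨⟨i, b⟩, rfl⟩
    fin_cases i
    · left
      cases b
      · exact ⟨FreeGroup.of 0, by unfold SG2_j; simp⟩
      · exact ⟨FreeGroup.of 1, by unfold SG2_j; simp⟩
    · right
      cases b
      · exact ⟨FreeGroup.of 1, by unfold SG2_j; simp⟩
      · exact ⟨FreeGroup.of 0, by unfold SG2_j; simp⟩

end Pool.Agent.RP
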